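import Mathlib

/-! Nim sums of 2-regular sequences need not be 2-regular. -/

namespace Pool.Agent.Results.MP_02a275_nt.NimSum

/-- The 2-kernel of an integer sequence. -/
def twoKernel (a : ℕ → ℤ) : Set (ℕ → ℤ) :=
  {s | ∃ e r : ℕ, r < 2 ^ e ∧ s = fun n => a (2 ^ e * n + r)}

/-- A sequence is 2-regular if the ℤ-module generated by its 2-kernel is finitely generated. -/
def TwoRegular (a : ℕ → ℤ) : Prop :=
  (Submodule.span ℤ (twoKernel a)).FG

/-- A two-dimensional array is 2-regular if all its subarrays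
`(c (2^e m + r) (2^e n + t))` are ℤ-linear combinations of finitely many arrays. -/
def TwoRegularArray (c : ℕ → ℕ → ℤ) : Prop :=
  ∃ F : Finset (ℕ → ℕ → ℤ), ∀ e r t : ℕ, r < 2 ^ e → t < 2 ^ e →
    (fun m n => c (2 ^ e * m + r) (2 ^ e * n + t)) ∈
      Submodule.span ℤ (F : Set (ℕ → ℕ → ℤ))

/-- The sequence `2 ^ ⌊log₂ n⌋` (and `0` at `n = 0`). -/
def topPow (n : ℕ) : ℕ := if n = 0 then 0 else 2 ^ (Nat.log 2 n)

theorem regular_of_le {a : ℕ → ℤ} (F : Finset (ℕ → ℤ))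
    (h : ∀ e r : ℕ, r < 2 ^ e → (fun n => a (2 ^ e * n + r)) ∈
      Submodule.span ℤ (F : Set (ℕ → ℤ))) : TwoRegular a := by
  unfold TwoRegular
  have hle : Submodule.span ℤ (twoKernel a) ≤ Submodule.span ℤ (F : Set (ℕ → ℤ)) := by
    rw [Submodule.span_le]
    rintro s ⟨e, r, hr, rfl⟩
    exact h e r hr
  have hfg : (Submodule.span ℤ (F : Set (ℕ → ℤ))).FG := ⟨F, rfl⟩
  exact Submodule.FG.of_le hfg hle

theorem sq_regular : TwoRegular (fun n => ((n ^ 2 : ℕ) : ℤ)) := by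
  classical
  refine regular_of_le {(fun n : ℕ => ((n ^ 2 : ℕ) : ℤ)), (fun n : ℕ => (n : ℤ)),
    (fun _ : ℕ => (1 : ℤ))} ?_
  intro e r _
  have hx : (fun n : ℕ => (((2 ^ e * n + r) ^ 2 : ℕ) : ℤ)) =
      ((2 : ℤ) ^ (2 * e)) • (fun n : ℕ => ((n ^ 2 : ℕ) : ℤ)) +
      (2 * 2 ^ e * r : ℤ) • (fun n : ℕ => (n : ℤ)) + ((r : ℤ) ^ 2) • (fun _ => (1 : ℤ)) := by
    funext n
    simp only [Pi.add_apply, Pi.smul_apply, smul_eq_mul]
    push_cast
    ring
  rw [hx]
  refine Submodule.add_mem _ (Submodule.add_mem _ ?_ ?_) ?_ <;>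
    refine Submodule.smul_mem _ _ (Submodule.subset_span ?_) <;> simp

theorem topPow_regular : TwoRegular (fun n => (topPow n : ℤ)) := by
  classical
  refine regular_of_le {(fun n : ℕ => (topPow n : ℤ)),
    (fun n : ℕ => if n = 0 then (1 : ℤ) else 0)} ?_
  intro e r hr
  have hx : (fun n : ℕ => ((topPow (2 ^ e * n + r) : ℕ) : ℤ)) =
      ((2 : ℤ) ^ e) • (fun n : ℕ => (topPow n : ℤ)) +
      (topPow r : ℤ) • (fun n : ℕ => if n = 0 then (1 : ℤ) else 0) := by
    funext n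
    simp only [Pi.add_apply, Pi.smul_apply, smul_eq_mul]
    rcases Nat.eq_zero_or_pos n with hn | hn
    · subst hn
      simp [topPow]
    · have h1 : n ≠ 0 := hn.ne'
      have h2 : 2 ^ e * n + r ≠ 0 := by positivity
      have h3 : Nat.log 2 (2 ^ e * n + r) = e + Nat.log 2 n := by
        rw [Nat.log_eq_iff (by right; exact ⟨by norm_num, h2⟩)]
        constructor
        · rw [pow_add]
          have := Nat.pow_log_le_self 2 h1
          nlinarith [Nat.pow_pos (n := e) (show 0 < 2 by norm_num)]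
        · have h4 : n < 2 ^ (Nat.log 2 n + 1) := Nat.lt_pow_succ_log_self (by norm_num) n
          have h5 : n + 1 ≤ 2 ^ (Nat.log 2 n + 1) := h4
          calc 2 ^ e * n + r < 2 ^ e * n + 2 ^ e := by omega
            _ = 2 ^ e * (n + 1) := by ring
            _ ≤ 2 ^ e * 2 ^ (Nat.log 2 n + 1) := Nat.mul_le_mul_left _ h5
            _ = 2 ^ (e + Nat.log 2 n + 1) := by ring
      simp only [topPow, h1, h2, if_false, h3]
      push_cast
      rw [pow_add]
      ring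
  rw [hx]
  refine Submodule.add_mem _ ?_ ?_ <;>
    refine Submodule.smul_mem _ _ (Submodule.subset_span ?_) <;> simp

theorem xor_pow_of_lt (h l m : ℕ) (hl : l < 2 ^ m) :
    (2 ^ (m + 1) * h + l) ^^^ 2 ^ m = 2 ^ (m + 1) * h + l + 2 ^ m := by
  have e1 : 2 ^ (m + 1) * h + l = 2 ^ m * (2 * h) + l := by ring
  have e2 : 2 ^ (m + 1) * h + l + 2 ^ m = 2 ^ m * (2 * h + 1) + l := by ring
  rw [e2, e1]
  apply Nat.eq_of_testBit_eq
  intro j
  rw [Nat.testBit_xor, Nat.testBit_two_pow_mul_add _ hl, Nat.testBit_two_pow_mul_add _ hl,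
    Nat.testBit_two_pow]
  by_cases hj : j < m
  · have : ¬ (m = j) := by omega
    simp [hj, this]
  · simp only [hj, if_false]
    obtain ⟨k, rfl⟩ : ∃ k, j = m + k := ⟨j - m, by omega⟩
    rcases k with _ | k
    · simp
    · have h1 : m + (k + 1) - m = k + 1 := by omega
      have h2 : ¬ (m = m + (k + 1)) := by omega
      rw [h1]
      simp only [h2, decide_false, Bool.xor_false]
      rw [Nat.testBit_succ, Nat.testBit_succ]
      congr 1
      omega

theorem topPow_eval (i j : ℕ) : topPow (2 ^ i * (2 ^ (j + 1) + 1)) = 2 ^ (i + (j + 1)) := by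
  have h2 : 2 ^ i * (2 ^ (j + 1) + 1) ≠ 0 := by positivity
  have h3 : Nat.log 2 (2 ^ i * (2 ^ (j + 1) + 1)) = i + (j + 1) := by
    rw [Nat.log_eq_iff (by right; exact ⟨by norm_num, h2⟩)]
    constructor
    · rw [pow_add]
      exact Nat.mul_le_mul_left _ (Nat.le_succ _)
    · have h4 : 2 ^ (j + 1) + 1 < 2 ^ (j + 1 + 1) := by
        have : 2 ≤ 2 ^ (j + 1) := by
          rw [pow_succ]; have := Nat.one_le_two_pow (n := j); omega
        rw [pow_succ 2 (j + 1)]; omega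
      calc 2 ^ i * (2 ^ (j + 1) + 1) < 2 ^ i * 2 ^ (j + 1 + 1) :=
            Nat.mul_lt_mul_of_pos_left h4 (by positivity)
        _ = 2 ^ (i + (j + 1) + 1) := by ring
  simp only [topPow, h2, if_false, h3]

/-- The nim sum of the two sequences. -/
def nim (n : ℕ) : ℕ := (n ^ 2) ^^^ (topPow n)

/-- values of `nim` off the diagonal -/
theorem nim_off (i j : ℕ) (hij : i < j) :
    nim (2 ^ (2 * i) * (2 ^ (2 * j) + 1)) =
      (2 ^ (2 * i) * (2 ^ (2 * j) + 1)) ^ 2 + 2 ^ (2 * i + 2 * j) := by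
  obtain ⟨k, hk⟩ : ∃ k, 2 * j = k + 1 := ⟨2 * j - 1, by omega⟩
  unfold nim
  rw [hk, topPow_eval, ← hk]
  have e1 : (2 ^ (2 * i) * (2 ^ (2 * j) + 1)) ^ 2 =
      2 ^ (2 * i + 2 * j + 1) * (2 ^ (2 * i + k) + 2 ^ (2 * i)) + 2 ^ (4 * i) := by
    rw [hk]; ring
  rw [e1]
  rw [xor_pow_of_lt _ _ _ (Nat.pow_lt_pow_right (by norm_num) (by omega))]

/-- values of `nim` on the diagonal -/
theorem nim_on (j : ℕ) (hj : 0 < j) :
    nim (2 ^ (2 * j) * (2 ^ (2 * j) + 1)) + 2 ^ (2 * j + 2 * j) =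
      (2 ^ (2 * j) * (2 ^ (2 * j) + 1)) ^ 2 := by
  obtain ⟨k, hk⟩ : ∃ k, 2 * j = k + 1 := ⟨2 * j - 1, by omega⟩
  unfold nim
  rw [hk, topPow_eval, ← hk]
  have e1 : (2 ^ (2 * j) * (2 ^ (2 * j) + 1)) ^ 2 =
      2 ^ (2 * j + 2 * j + 1) * (2 ^ (2 * j + k) + 2 ^ (2 * j)) + 0 + 2 ^ (2 * j + 2 * j) := by
    rw [hk]; ring
  rw [e1]
  rw [← xor_pow_of_lt _ _ _ (by positivity)]
  rw [Nat.xor_assoc, Nat.xor_self, Nat.xor_zero]
  rw [xor_pow_of_lt _ _ _ (by positivity)]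

theorem finite_mod {C : ℕ → ℤ} (h : TwoRegular C) :
    Set.Finite {s : ℕ → ZMod 3 | ∃ t ∈ twoKernel C, s = fun n => ((t n : ℤ) : ZMod 3)} := by
  classical
  obtain ⟨S, hS⟩ := h
  let Φ : (S → ZMod 3) → (ℕ → ZMod 3) := fun c n => ∑ x : S, c x * (((x : ℕ → ℤ) n : ℤ) : ZMod 3)
  refine (Set.finite_range Φ).subset ?_
  rintro s ⟨t, ht, rfl⟩
  have ht' : t ∈ Submodule.span ℤ (S : Set (ℕ → ℤ)) := by
    rw [hS]; exact Submodule.subset_span ht
  rw [Submodule.mem_span_finset'] at ht'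
  obtain ⟨f, hf⟩ := ht'
  refine ⟨fun x => ((f x : ℤ) : ZMod 3), ?_⟩
  funext n
  simp only [Φ]
  rw [← hf]
  simp [Finset.sum_apply]

theorem nim_not_regular : ¬ TwoRegular (fun n => (nim n : ℤ)) := by
  intro h
  have hfin := finite_mod h
  let K : ℕ → (ℕ → ZMod 3) := fun i n => ((nim (2 ^ (2 * i) * n) : ℤ) : ZMod 3)
  have hK : ∀ i, K i ∈ {s : ℕ → ZMod 3 | ∃ t ∈ twoKernel (fun n => (nim n : ℤ)),
      s = fun n => ((t n : ℤ) : ZMod 3)} := by
    intro i
    exact ⟨fun n => (nim (2 ^ (2 * i) * n + 0) : ℤ), ⟨2 * i, 0, by positivity, rfl⟩, rfl⟩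
  have hnotinj : ¬ Set.InjOn K (Set.Ioi 0) := by
    intro hinj
    have himg : (K '' (Set.Ioi 0)).Finite := hfin.subset (by
      rintro _ ⟨i, _, rfl⟩
      exact hK i)
    exact (Set.Ioi_infinite 0) (Set.Finite.of_finite_image himg hinj)
  have key : ∀ i j : ℕ, i < j → K i ≠ K j := by
    intro i j hij heq
    have h1 := congrFun heq (2 ^ (2 * j) + 1)
    simp only [K] at h1
    have h2 := nim_off i j hij
    have h3 := nim_on j (by omega)
    have h4 : (((nim (2 ^ (2 * j) * (2 ^ (2 * j) + 1)) : ℕ) : ℤ) : ZMod 3) =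
        (((2 ^ (2 * j) * (2 ^ (2 * j) + 1)) ^ 2 : ℕ) : ZMod 3) - ((2 ^ (2 * j + 2 * j) : ℕ) : ZMod 3) := by
      rw [← h3]; push_cast; ring
    rw [h4, h2] at h1
    push_cast at h1
    have h5 : (2 : ZMod 3) ^ (2 * i) = 1 := by
      rw [pow_mul]; rw [show (2 : ZMod 3) ^ 2 = 1 by decide]; simp
    have h6 : (2 : ZMod 3) ^ (2 * j) = 1 := by
      rw [pow_mul]; rw [show (2 : ZMod 3) ^ 2 = 1 by decide]; simp
    rw [pow_add, pow_add, h5, h6] at h1
    revert h1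
    decide
  apply hnotinj
  intro i _ j _ hij
  by_contra hne
  rcases lt_or_gt_of_ne hne with hlt | hlt
  · exact key i j hlt hij
  · exact key j i hlt hij.symm

theorem array_diag {c : ℕ → ℕ → ℤ} (h : TwoRegularArray c) : TwoRegular (fun n => c n n) := by
  classical
  obtain ⟨F, hF⟩ := h
  let D : (ℕ → ℕ → ℤ) →ₗ[ℤ] (ℕ → ℤ) :=
    { toFun := fun x n => x n n
      map_add' := fun x y => rfl
      map_smul' := fun r x => rfl }
  refine regular_of_le (F.image D) ?_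
  intro e r hr
  have := Submodule.mem_map_of_mem (f := D) (hF e r r hr hr)
  rw [Submodule.map_span] at this
  rw [Finset.coe_image]
  exact this

/-- There are 2-regular sequences `a, b` of non-negative integers whose nim sum is not
2-regular, and for which the nim-sum array `(a_i ⊕ b_j)` is not 2-regular either. -/
theorem result :
    ∃ a b : ℕ → ℕ, TwoRegular (fun n => (a n : ℤ)) ∧ TwoRegular (fun n => (b n : ℤ)) ∧
      ¬ TwoRegular (fun n => ((a n ^^^ b n : ℕ) : ℤ)) ∧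
      ¬ TwoRegularArray (fun i j => ((a i ^^^ b j : ℕ) : ℤ)) := by
  refine ⟨fun n => n ^ 2, topPow, sq_regular, topPow_regular, nim_not_regular, ?_⟩
  intro h
  have h2 := array_diag h
  exact nim_not_regular h2

end Pool.Agent.Results.MP_02a275_nt.NimSum
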